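import Pool.Agent.H23.LC.Tools

/-!
# The mean value of the `L`-functions of all Hecke characters of a number field: targets
-/

set_option autoImplicit false

open NumberField NumberField.InfinitePlace NumberField.Units
  NumberField.Units.dirichletUnitTheorem MeasureTheory Set Filter Complex
open scoped nonZeroDivisors ENNReal

namespace Pool.Agent.H23.LC

open Pool.Agent.H25.HK Pool.Agent.H23.LB
open Pool.Agent.H28.RC (Rep ft idl)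

/-! ### Part A: lattices -/

/-- (PW) products of theta functions of two unimodular lattices. -/
def U_PW : Prop :=
  ∀ n : ℕ, 0 < n → ∃ C : ℝ, 0 ≤ C ∧ ∀ κ : ℝ, 0 < κ → κ ≤ 1 → ∀ (ι : Type) [Fintype ι]
    [DecidableEq ι] (P Q : Matrix ι ι ℝ), P.PosDef → Q.PosDef → P.det = 1 → Q.det = 1 →
    Fintype.card ι = n → ∀ N V : ℝ, 1 ≤ N → 0 < V →
    (Fs P (1 / V) - 1) * Fs Q (N / V) ≤
      C * κ ^ (-2 : ℝ) * (N ^ κ * (V + V ^ 2 / N)) * (AF κ P + AF κ P⁻¹ + AF κ Q + AF κ Q⁻¹)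

/-- (PV) the same for ideal lattices. -/
def U_PV : Prop :=
  ∀ n : ℕ, 0 < n → ∃ C : ℝ, 0 ≤ C ∧ ∀ κ : ℝ, 0 < κ → κ ≤ 1 → ∀ (K : Type) [Field K]
    [NumberField K], Module.finrank ℚ K = n → ∀ (f : Ideal (𝓞 K)) (M : FI K) (z : logSpace K)
    (N V : ℝ), f ≠ ⊥ → M ≠ 0 → 1 ≤ N → 0 < V →
    (FT K M z (1 / V) - 1) * FT K ((f : FI K) * M) z (N / V) ≤
      C * κ ^ (-2 : ℝ) * (N ^ κ * (V + V ^ 2 / N)) *
        (AK K κ M z + AK K κ (du K M) (-z) + AK K κ ((f : FI K) * M) z +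
          AK K κ (du K ((f : FI K) * M)) (-z))

open scoped Classical in
/-- (AK) the mean value of the Epstein zeta function at `1 + κ`. -/
def U_AK : Prop :=
  ∀ n : ℕ, ∃ C B : ℝ, 0 ≤ C ∧ 0 ≤ B ∧ ∀ κ : ℝ, 0 < κ → κ ≤ 1 → ∀ (K : Type) [Field K]
    [NumberField K], Module.finrank ℚ K = n → ∀ (ι : Type) [Fintype ι] (M : ι → FI K),
    Reps K M →
    ∑ c, ∫ z in Fd K, AK K κ (M c) z ≤
      C * κ ^ (-B) * (cw K * |(discr K : ℝ)| ^ ((1 + κ) / 2)) ∧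
    ∑ c, ∫ z in Fd K, AK K κ (M c) (-z) ≤
      C * κ ^ (-B) * (cw K * |(discr K : ℝ)| ^ ((1 + κ) / 2))

open scoped Classical in
/-- (AV) the mean value of the products. -/
def U_AV : Prop :=
  ∀ n : ℕ, 0 < n → ∃ C B : ℝ, 0 ≤ C ∧ 0 ≤ B ∧ ∀ κ : ℝ, 0 < κ → κ ≤ 1 → ∀ (K : Type) [Field K]
    [NumberField K], Module.finrank ℚ K = n → ∀ (f : Ideal (𝓞 K)), f ≠ ⊥ →
    ∀ (ι : Type) [Fintype ι] (M : ι → FI K), Reps K M → ∀ N V : ℝ, 1 ≤ N → 0 < V →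
    ∑ c, ∫⁻ z in Fd K, ENNReal.ofReal ((FT K (M c) z (1 / V) - 1) *
      FT K ((f : FI K) * M c) z (N / V)) ≤
    ENNReal.ofReal (C * κ ^ (-B) * (cw K * |(discr K : ℝ)| ^ ((1 + κ) / 2)) *
      (N ^ κ * (V + V ^ 2 / N)))

/-! ### Part B: the multiplicative group at infinity -/

open scoped Classical in
/-- (VL) volumes. -/
def U_VL : Prop :=
  ∀ n : ℕ, ∃ c C : ℝ, 0 < c ∧ 0 ≤ C ∧ ∀ (K : Type) [Field K] [NumberField K],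
    Module.finrank ℚ K = n → ∀ δ : ℝ, 0 < δ → δ ≤ 4 →
    ENNReal.ofReal (c * δ ^ np K) ≤
      volume {p : logSpace K × ℝ | ∀ v : InfinitePlace K, |yc K p.2 p.1 v| ≤ δ} ∧
    volume {p : logSpace K × ℝ | ∀ v : InfinitePlace K, |yc K p.2 p.1 v| ≤ δ} ≤
      ENNReal.ofReal (C * δ ^ np K)

open scoped Classical in
/-- (AN) the integrals over the angle at one place. -/
def U_AN : Prop :=
  ∀ (K : Type) [Field K] [NumberField K] (v : InfinitePlace K) (x : K), x ≠ 0 →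
    ∀ (k : ℤ) (δ a : ℝ), 0 < a →
    (∫ θ in Icc (0 : ℝ) (2 * Real.pi), an v θ ^ (-k) *
        (if ‖v.embedding x * (a : ℂ) * an v θ - 1‖ ≤ δ then (1 : ℂ) else 0) =
      (v.embedding x / ((v x : ℝ) : ℂ)) ^ k * ∫ θ in Icc (0 : ℝ) (2 * Real.pi), an v θ ^ (-k) *
        (if ‖((v x * a : ℝ) : ℂ) * an v θ - 1‖ ≤ δ then (1 : ℂ) else 0)) ∧
    (∫ θ in Icc (0 : ℝ) (2 * Real.pi), an v θ ^ (-k) *
        (if ‖v.embedding x * (a : ℂ) * (starRingEnd ℂ) (an v θ) - 1‖ ≤ δ then (1 : ℂ) else 0) =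
      (v.embedding x / ((v x : ℝ) : ℂ)) ^ (-k) * ∫ θ in Icc (0 : ℝ) (2 * Real.pi), an v θ ^ k *
        (if ‖((v x * a : ℝ) : ℂ) * an v θ - 1‖ ≤ δ then (1 : ℂ) else 0))

open scoped Classical in
/-- (TH) the measure of the angles. -/
def U_TH : Prop :=
  ∀ n : ℕ, 0 < n → ∃ C : ℝ, 0 ≤ C ∧ ∀ (K : Type) [Field K] [NumberField K],
    Module.finrank ℚ K = n → ∀ (δ Y τ : ℝ) (M : FI K) (z : logSpace K), 0 < δ → δ ≤ 1 / 4 →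
    0 < Y → M ≠ 0 →
    ∫⁻ θ in An K, NP δ Y M τ z θ ≤
      ENNReal.ofReal (C * δ ^ nrComplexPlaces K) * NT (2 * δ) Y M τ z ∧
    ∫⁻ θ in An K, ND δ Y M τ z θ ≤
      ENNReal.ofReal (C * δ ^ nrComplexPlaces K) * NT (2 * δ) Y M τ z

/-- (UH) the lower bound for the Fourier coefficient of the thin region. -/
def U_UH : Prop :=
  ∀ n : ℕ, 0 < n → ∃ c : ℝ, 0 < c ∧ ∀ (K : Type) [Field K] [NumberField K],
    Module.finrank ℚ K = n → ∀ (k : InfinitePlace K → ℤ) (ν : InfinitePlace K → ℝ) (T t δ : ℝ),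
    (∀ v, |ν v| ≤ T ∧ |(k v : ℝ)| ≤ T) → ∑ v, (v.mult : ℝ) * ν v = 0 → |t| ≤ T → 1 ≤ T →
    δ = 1 / (64 * n * T) → c * δ ^ n ≤ ‖Uh K δ k ν t‖

open scoped Classical in
/-- (SM) measurability, bounds and supports. -/
def U_SM : Prop :=
  ∀ (K : Type) [Field K] [NumberField K] (f : Ideal (𝓞 K)) (M : FI K) (r : K) (δ Y : ℝ)
    (b : Ideal (𝓞 K) → ℂ), f ≠ ⊥ → M ≠ 0 → 0 < δ → Module.finrank ℚ K * δ ≤ 1 / 8 → 0 < Y →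
    Measurable (fun p : logSpace K × ℝ × (InfinitePlace K → ℝ) =>
      Sp f δ Y b M r p.2.1 p.1 p.2.2) ∧
    Measurable (fun p : logSpace K × ℝ × (InfinitePlace K → ℝ) =>
      Sd δ Y b M r p.2.1 p.1 p.2.2) ∧
    (∃ C : ℝ, ∀ (τ : ℝ) (z : logSpace K) (θ : InfinitePlace K → ℝ), z ∈ Fd K →
      ‖Sp f δ Y b M r τ z θ‖ ≤ C ∧ ‖Sd δ Y b M r τ z θ‖ ≤ C) ∧
    ∀ (τ : ℝ) (z : logSpace K) (θ : InfinitePlace K → ℝ),
      (Sp f δ Y b M r τ z θ ≠ 0 → |τ + Real.log Y| ≤ 1) ∧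
      (Sd δ Y b M r τ z θ ≠ 0 → |τ + Real.log Y| ≤ 1)

open scoped Classical in
/-- (CI) measurability and invariance of the counting functions. -/
def U_CI : Prop :=
  ∀ (K : Type) [Field K] [NumberField K] (L M : FI K) (δ Y : ℝ), L ≠ 0 → M ≠ 0 → 0 < δ →
    0 < Y →
    Measurable (fun p : logSpace K × ℝ => NT δ Y M p.2 p.1 * NB δ L (yM K M p.2 p.1)) ∧
    Measurable (fun p : logSpace K × ℝ × (InfinitePlace K → ℝ) =>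
      NP δ Y M p.2.1 p.1 p.2.2 * NB δ L (yM K M p.2.1 p.1)) ∧
    Measurable (fun p : logSpace K × ℝ × (InfinitePlace K → ℝ) =>
      ND δ Y M p.2.1 p.1 p.2.2 * NB δ L (yM K M p.2.1 p.1)) ∧
    ∀ (τ : ℝ) (z : logSpace K), ∀ l ∈ unitLattice K,
      NT δ Y M τ (z + l) = NT δ Y M τ z ∧ NB δ L (yM K M τ (z + l)) = NB δ L (yM K M τ z)

open scoped Classical in
/-- (ZN) reflection of the fundamental domain. -/
def U_ZN : Prop :=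
  ∀ (K : Type) [Field K] [NumberField K] (g : logSpace K → ℝ≥0∞), Measurable g →
    (∀ z, ∀ l ∈ unitLattice K, g (z + l) = g z) → ∫⁻ z in Fd K, g (-z) = ∫⁻ z in Fd K, g z

/-! ### Part C: counting pairs -/

open scoped Classical in
/-- (PS) the sum over the residue classes. -/
def U_PS : Prop :=
  ∀ (K : Type) [Field K] [NumberField K] (f : Ideal (𝓞 K)) (M : FI K) (X : Finset K)
    (δ Y β : ℝ) (b : Ideal (𝓞 K) → ℂ) (τ : ℝ) (z : logSpace K) (θ : InfinitePlace K → ℝ),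
    f ≠ ⊥ → M ≠ 0 → Rep K f M X → 0 < δ → δ ≤ 1 / 4 → 0 < Y → (∀ J, ‖b J‖ ≤ β) →
    ∑ r ∈ X, ENNReal.ofReal (‖Sp f δ Y b M r τ z θ‖ ^ 2) ≤
      ENNReal.ofReal (β ^ 2) * NP δ Y M τ z θ * NB (2 * δ) ((f : FI K) * M) (yM K M τ z)

open scoped Classical in
/-- (PD) the dual sum over the residue classes. -/
def U_PD : Prop :=
  ∀ (K : Type) [Field K] [NumberField K] (f : Ideal (𝓞 K)) (M : FI K) (X : Finset K)
    (δ Y β : ℝ) (b : Ideal (𝓞 K) → ℂ) (τ : ℝ) (z : logSpace K) (θ : InfinitePlace K → ℝ),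
    f ≠ ⊥ → M ≠ 0 → Rep K f M X → 0 < δ → δ ≤ 1 / 4 → 0 < Y → (∀ J, ‖b J‖ ≤ β) →
    ∑ r ∈ X, ENNReal.ofReal (‖Sd δ Y b (du K ((f : FI K) * M)) r τ z θ‖ ^ 2) ≤
      ENNReal.ofReal (Nf K f * β ^ 2) * ND δ Y (du K ((f : FI K) * M)) τ (-z) θ *
        NB (2 * δ) ((f : FI K) * du K ((f : FI K) * M)) (yM K (du K ((f : FI K) * M)) τ (-z))

open scoped Classical in
/-- (TF) from thin to fat regions. -/
def U_TF : Prop :=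
  ∀ n : ℕ, 0 < n → ∃ C : ℝ, 1 ≤ C ∧ ∀ (K : Type) [Field K] [NumberField K],
    Module.finrank ℚ K = n → ∀ (f : Ideal (𝓞 K)) (M : FI K) (δ Y : ℝ), f ≠ ⊥ → M ≠ 0 →
    0 < δ → δ ≤ 1 / 2 → 0 < Y →
    ∫⁻ z in Fd K, ∫⁻ τ : ℝ, NT δ Y M τ z * NB δ ((f : FI K) * M) (yM K M τ z) ≤
      ENNReal.ofReal (C * δ ^ np K) *
        ∫⁻ z in Fd K, ∫⁻ τ : ℝ, NT 1 Y M τ z * NB (C * δ) ((f : FI K) * M) (yM K M τ z)

open scoped Classical in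
/-- (FF) from fat regions to theta functions. -/
def U_FF : Prop :=
  ∀ (n : ℕ) (A : ℝ), 0 < n → 1 ≤ A → ∃ C : ℝ, 1 ≤ C ∧ ∀ (K : Type) [Field K] [NumberField K],
    Module.finrank ℚ K = n → ∀ (f : Ideal (𝓞 K)) (M : FI K) (δ Y : ℝ), f ≠ ⊥ → M ≠ 0 →
    0 < δ → δ ≤ 1 / 2 → 0 < Y →
    ∫⁻ z in Fd K, ∫⁻ τ : ℝ, NT 1 Y M τ z * NB (A * δ) ((f : FI K) * M) (yM K M τ z) ≤
      ENNReal.ofReal C * ∫⁻ z in Fd K, ENNReal.ofReal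
        ((FT K M z (1 / (C * Y / Real.sqrt |(discr K : ℝ)|)) - 1) *
          FT K ((f : FI K) * M) z ((Nf K f * δ ^ (-(n : ℝ))) /
            (C * Y / Real.sqrt |(discr K : ℝ)|)))

open scoped Classical in
/-- (CN) the number of the pairs. -/
def U_CN : Prop :=
  ∀ n : ℕ, 0 < n → ∃ C B : ℝ, 0 ≤ C ∧ 0 ≤ B ∧ ∀ κ : ℝ, 0 < κ → κ ≤ 1 → ∀ (K : Type) [Field K]
    [NumberField K], Module.finrank ℚ K = n → ∀ (f : Ideal (𝓞 K)), f ≠ ⊥ →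
    ∀ (ι : Type) [Fintype ι] (M : ι → FI K), Reps K M → ∀ δ Y : ℝ, 0 < δ → δ ≤ 1 / 2 → 0 < Y →
    ∑ c, ∫⁻ z in Fd K, ∫⁻ τ : ℝ, NT δ Y (M c) τ z *
      NB δ ((f : FI K) * M c) (yM K (M c) τ z) ≤
    ENNReal.ofReal (C * κ ^ (-B) * δ ^ np K * cw K *
      (|(discr K : ℝ)| * (Nf K f * δ ^ (-(n : ℝ)))) ^ κ *
        (Y * (1 + Y / (Real.sqrt |(discr K : ℝ)| * (Nf K f * δ ^ (-(n : ℝ)))))))

/-! ### Part D: characters -/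

/-- (AG) the angular part. -/
def U_AG : Prop :=
  ∀ (K : Type) [Field K] [NumberField K] (k : InfinitePlace K → ℤ),
    (∀ x y : K, x ≠ 0 → y ≠ 0 → ag k (x * y) = ag k x * ag k y) ∧
    (∀ x : K, x ≠ 0 → ‖ag k x‖ = 1) ∧ ag k (1 : K) = 1 ∧
    (∀ x : K, x ≠ 0 → ag (-k) x = (starRingEnd ℂ) (ag k x)) ∧
    (∀ x : K, ag (0 : InfinitePlace K → ℤ) x = 1) ∧ (k ≠ 0 → ag k (0 : K) = 0)

/-- (CG) properties of the coefficients. -/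
def U_CG : Prop :=
  ∀ (K : Type) [Field K] [NumberField K] (f : Ideal (𝓞 K)) (χ : HG K f) (M : FI K), f ≠ ⊥ →
    M ≠ 0 →
    (∀ x ∈ M, x ≠ 0 → cg χ M x = (starRingEnd ℂ) (ag χ.k x) * (starRingEnd ℂ) (ph χ.ν x) *
      χ.ψ (idl K M x)) ∧
    (∀ x ∈ M, ‖cg χ M x‖ ≤ 1) ∧
    (∀ u : (𝓞 K)ˣ, ∀ x ∈ M, cg χ M ((u : K) * x) =
      (starRingEnd ℂ) (ag χ.k (u : K)) * (starRingEnd ℂ) (ph χ.ν (u : K)) * cg χ M x) ∧
    (∀ x ∈ M, ∀ l ∈ (f : FI K) * M, cg χ M (x + l) = cg χ M x) ∧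
    (∀ x ∈ M, x ≠ 0 → idl K M x ⊔ f = ⊤ → ‖cg χ M x‖ = 1) ∧
    (∀ x ∈ M, x ≠ 0 → idl K M x ⊔ f ≠ ⊤ → cg χ M x = 0) ∧
    (f ≠ ⊤ → cg χ M 0 = 0) ∧ (f = ⊤ → ‖cg χ M 0‖ = 1)

open scoped Classical in
/-- (OG) orthogonality of the characters with the same angular parameters. -/
def U_OG : Prop :=
  ∀ (K : Type) [Field K] [NumberField K] (f : Ideal (𝓞 K)), f ≠ ⊥ → ∀ (D : Sys K f)
    (χ χ' : HG K f), χ.k = χ'.k →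
    (χ ≠ χ' → ∑ c, ∑ r ∈ D.X c, cg χ (D.M c) r * (starRingEnd ℂ) (cg χ' (D.M c) r) *
      ∫ z in Fd K, ec K χ.ν z * (starRingEnd ℂ) (ec K χ'.ν z) = 0) ∧
    ∑ c, ∑ r ∈ D.X c, ‖cg χ (D.M c) r‖ ^ 2 = (classNumber K : ℝ) * Phi K f

open scoped Classical in
/-- (BT) the inequality of Bessel. -/
def U_BT : Prop :=
  ∀ (K : Type) [Field K] [NumberField K] (f : Ideal (𝓞 K)), f ≠ ⊥ → ∀ (D : Sys K f)
    (Y : Finset (HG K f)) (T τ₁ : ℝ)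
    (F : D.ι → K → logSpace K × ℝ × (InfinitePlace K → ℝ) → ℂ), 0 < T →
    (∀ c r, Measurable (F c r)) →
    (∃ C : ℝ, ∀ c r p, p.1 ∈ Fd K → ‖F c r p‖ ≤ C) →
    (∀ c r p, F c r p ≠ 0 → p.2.1 ∈ Icc τ₁ (τ₁ + 4)) →
    ∑ χ ∈ Y, ∫⁻ t in Icc (-T) T, ENNReal.ofReal (‖∑ c, ∑ r ∈ D.X c, cg χ (D.M c) r *
      ∫ p in Fd K ×ˢ (univ : Set ℝ) ×ˢ An K, ec K χ.ν p.1 * cexp (t * p.2.1 * I) *
        (ek χ.k p.2.2 * F c r p)‖ ^ 2) ≤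
      ENNReal.ofReal (2 * Real.pi * (2 * Real.pi) ^ np K *
        (classNumber K * regulator K * Phi K f)) *
        ∑ c, ∑ r ∈ D.X c, ∫⁻ p in Fd K ×ˢ (univ : Set ℝ) ×ˢ An K,
          ENNReal.ofReal (‖F c r p‖ ^ 2)

open scoped Classical in
/-- (UB) unfolding. -/
def U_UB : Prop :=
  ∀ (K : Type) [Field K] [NumberField K] (f : Ideal (𝓞 K)), f ≠ ⊥ → ∀ (D : Sys K f)
    (χ : HG K f) (δ Y t : ℝ) (b : Ideal (𝓞 K) → ℂ), 0 < δ →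
    Module.finrank ℚ K * δ ≤ 1 / 8 → 0 < Y →
    ∑ c, ∑ r ∈ D.X c, cg χ (D.M c) r *
      ∫ p in Fd K ×ˢ (univ : Set ℝ) ×ˢ An K, ec K χ.ν p.1 * cexp (t * p.2.1 * I) *
        (ek χ.k p.2.2 * Sp f δ Y b (D.M c) r p.2.1 p.1 p.2.2) =
      (torsionOrder K : ℂ) * Uh K δ χ.k χ.ν t * bs χ.ψ b Y t

open scoped Classical in
/-- (UD) dual unfolding. -/
def U_UD : Prop :=
  ∀ (K : Type) [Field K] [NumberField K] (f : Ideal (𝓞 K)), f ≠ ⊥ → ∀ (D : Sys K f)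
    (χ : HG K f) (δ Y t : ℝ) (b : Ideal (𝓞 K) → ℂ), 0 < δ →
    Module.finrank ℚ K * δ ≤ 1 / 8 → 0 < Y →
    ∑ c, ∑ r ∈ D.X c, cg χ (D.M c) r *
      ∫ p in Fd K ×ˢ (univ : Set ℝ) ×ˢ An K, ec K χ.ν p.1 * cexp (t * p.2.1 * I) *
        (ek χ.k p.2.2 * Sd δ Y b (du K ((f : FI K) * D.M c)) r p.2.1 p.1 p.2.2) =
      (torsionOrder K : ℂ) * Uh K δ (-χ.k) (-χ.ν) t * ((Real.sqrt (Nf K f) : ℝ) : ℂ) *
        bs (cd D χ) b Y t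

/-- (MV) the mean value theorem. -/
def U_MV : Prop :=
  ∀ n : ℕ, 0 < n → ∃ C B : ℝ, 0 ≤ C ∧ 0 ≤ B ∧ ∀ κ : ℝ, 0 < κ → κ ≤ 1 → ∀ (K : Type) [Field K]
    [NumberField K], Module.finrank ℚ K = n → ∀ (f : Ideal (𝓞 K)), f ≠ ⊥ → ∀ (T : ℝ), 1 ≤ T →
    ∀ (S : Finset (HG K f)), (∀ χ ∈ S, χ ∈ box K f T) → ∀ (Y β : ℝ) (b : Ideal (𝓞 K) → ℂ),
    0 < Y → 0 ≤ β → (∀ J, ‖b J‖ ≤ β) →
    ∑ χ ∈ S, ∫⁻ t in Icc (-T) T, ENNReal.ofReal (‖bs χ.ψ b Y t‖ ^ 2) ≤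
      ENNReal.ofReal (C * κ ^ (-B) * (|(discr K : ℝ)| * (Nf K f * T ^ n)) ^ κ *
        (T ^ n * (classNumber K * regulator K * Phi K f)) *
        (β ^ 2 * (Y * (1 + Y / (Real.sqrt |(discr K : ℝ)| * (Nf K f * T ^ n))))))

/-- (MD) the dual mean value theorem. -/
def U_MD : Prop :=
  ∀ n : ℕ, 0 < n → ∃ C B : ℝ, 0 ≤ C ∧ 0 ≤ B ∧ ∀ κ : ℝ, 0 < κ → κ ≤ 1 → ∀ (K : Type) [Field K]
    [NumberField K], Module.finrank ℚ K = n → ∀ (f : Ideal (𝓞 K)), f ≠ ⊥ → ∀ (D : Sys K f)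
    (T : ℝ), 1 ≤ T →
    ∀ (S : Finset (HG K f)), (∀ χ ∈ S, χ ∈ box K f T) → ∀ (Y β : ℝ) (b : Ideal (𝓞 K) → ℂ),
    0 < Y → 0 ≤ β → (∀ J, ‖b J‖ ≤ β) →
    ∑ χ ∈ S, ∫⁻ t in Icc (-T) T, ENNReal.ofReal (‖bs (cd D χ) b Y t‖ ^ 2) ≤
      ENNReal.ofReal (C * κ ^ (-B) * (|(discr K : ℝ)| * (Nf K f * T ^ n)) ^ κ *
        (T ^ n * (classNumber K * regulator K * Phi K f)) *
        (β ^ 2 * (Y * (1 + Y / (Real.sqrt |(discr K : ℝ)| * (Nf K f * T ^ n))))))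

/-! ### Part E: the functional equation -/

/-- (PX) Poisson summation with a complex shift. -/
def U_PX : Prop :=
  ∀ (ι : Type) [Fintype ι] [DecidableEq ι] (A : Matrix ι ι ℝ), A.det ≠ 0 →
    ∀ (x₀ : ι → ℝ) (w : ι → ℂ),
    Summable (fun m : ι → ℤ => ‖cexp (-Real.pi * ∑ i,
      ((A.mulVec (fun i => (m i : ℝ) + x₀ i) i : ℝ) : ℂ) ^ 2 - 2 * Real.pi * ∑ i,
        w i * ((A.mulVec (fun i => (m i : ℝ) + x₀ i) i : ℝ) : ℂ))‖) ∧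
    Summable (fun k : ι → ℤ => ‖cexp (-Real.pi * ∑ i,
      (((A⁻¹).transpose.mulVec (fun i => (k i : ℝ)) i : ℝ) : ℂ) ^ 2 + 2 * Real.pi * I * ∑ i,
        w i * (((A⁻¹).transpose.mulVec (fun i => (k i : ℝ)) i : ℝ) : ℂ))‖) ∧
    cexp (-Real.pi * ∑ i, w i ^ 2) * ∑' m : ι → ℤ, cexp (-Real.pi * ∑ i,
      ((A.mulVec (fun i => (m i : ℝ) + x₀ i) i : ℝ) : ℂ) ^ 2 - 2 * Real.pi * ∑ i,
        w i * ((A.mulVec (fun i => (m i : ℝ) + x₀ i) i : ℝ) : ℂ)) =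
      ((|A.det|⁻¹ : ℝ) : ℂ) * ∑' k : ι → ℤ,
        cexp ((2 * Real.pi * (∑ i, (k i : ℝ) * x₀ i) : ℝ) * I) * cexp (-Real.pi * ∑ i,
      (((A⁻¹).transpose.mulVec (fun i => (k i : ℝ)) i : ℝ) : ℂ) ^ 2 + 2 * Real.pi * I * ∑ i,
        w i * (((A⁻¹).transpose.mulVec (fun i => (k i : ℝ)) i : ℝ) : ℂ))

open scoped Classical in
/-- (PM) Poisson summation with a harmonic polynomial. -/
def U_PM : Prop :=
  ∀ (K : Type) [Field K] [NumberField K] (k : InfinitePlace K → ℤ),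
    (∀ v : InfinitePlace K, v.IsReal → k v = 0 ∨ k v = 1) →
    ∀ (A : Matrix (mixedEmbedding.index K) (mixedEmbedding.index K) ℝ), A.det ≠ 0 →
    ∀ x₀ : mixedEmbedding.index K → ℝ,
    Summable (fun m : mixedEmbedding.index K → ℤ =>
      ‖hp k (A.mulVec (fun i => (m i : ℝ) + x₀ i))‖ *
        Real.exp (-Real.pi * ∑ i, (A.mulVec (fun i => (m i : ℝ) + x₀ i) i) ^ 2)) ∧
    Summable (fun m : mixedEmbedding.index K → ℤ =>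
      ‖hp k ((A⁻¹).transpose.mulVec (fun i => (m i : ℝ)))‖ *
        Real.exp (-Real.pi * ∑ i, ((A⁻¹).transpose.mulVec (fun i => (m i : ℝ)) i) ^ 2)) ∧
    ∑' m : mixedEmbedding.index K → ℤ, hp k (A.mulVec (fun i => (m i : ℝ) + x₀ i)) *
        ((Real.exp (-Real.pi * ∑ i, (A.mulVec (fun i => (m i : ℝ) + x₀ i) i) ^ 2) : ℝ) : ℂ) =
      ((|A.det|⁻¹ : ℝ) : ℂ) * (-I) ^ dk K k * ∑' m : mixedEmbedding.index K → ℤ,
        cexp ((2 * Real.pi * (∑ i, (m i : ℝ) * x₀ i) : ℝ) * I) *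
          (hp k ((A⁻¹).transpose.mulVec (fun i => (m i : ℝ))) * ((Real.exp (-Real.pi *
            ∑ i, ((A⁻¹).transpose.mulVec (fun i => (m i : ℝ)) i) ^ 2) : ℝ) : ℂ))

/-- (TK) the functional equation of the theta series. -/
def U_TK : Prop :=
  ∀ (K : Type) [Field K] [NumberField K] (k : InfinitePlace K → ℤ) (f : Ideal (𝓞 K))
    (M : FI K) (X : Finset K) (c : K → ℂ),
    (∀ v : InfinitePlace K, v.IsReal → k v = 0 ∨ k v = 1) → f ≠ ⊥ → M ≠ 0 → Rep K f M X →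
    (∀ x ∈ M, ∀ l ∈ (f : FI K) * M, c (x + l) = c x) → ∀ y : InfinitePlace K → ℝ,
    tk K k M c y = ((Real.exp (-(∑ v, (v.mult : ℝ) * y v) / 2) *
      (cv K ((f : FI K) * M))⁻¹ : ℝ) : ℂ) * (-I) ^ dk K k *
        tk K (-k) (du K ((f : FI K) * M)) (ft K X c) (-y)

/-- (SK) absolute convergence. -/
def U_SK : Prop :=
  ∀ (K : Type) [Field K] [NumberField K] (k : InfinitePlace K → ℤ),
    (∃ C : ℝ, ∀ (y : InfinitePlace K → ℝ) (x : K), ‖wk K k y x‖ *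
      Real.exp (-Real.pi * qK K y x) ≤
        C * Real.exp (-Real.pi * qK K (fun v => y v - Real.log 2) x)) ∧
    (∀ (M : FI K), M ≠ 0 → ∀ y : InfinitePlace K → ℝ,
      Summable (fun x : {x : K // x ∈ M} => ‖wk K k y x‖ * Real.exp (-Real.pi * qK K y x))) ∧
    (∀ y : InfinitePlace K → ℝ, (k ≠ 0 → wk K k y (0 : K) = 0) ∧
      (k = 0 → ∀ x : K, wk K k y x = 1)) ∧
    ∀ (M : FI K) (c : K → ℂ), M ≠ 0 → (∃ B : ℝ, ∀ x ∈ M, ‖c x‖ ≤ B) →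
      Continuous (tk K k M c)

/-- (WK) the pair of functions with a functional equation. -/
def U_WK : Prop :=
  ∀ (K : Type) [Field K] [NumberField K] (f : Ideal (𝓞 K)), f ≠ ⊥ → ∀ (D : Sys K f)
    (χ : HG K f) (c : D.ι), ∃ P : WeakFEPair ℂ, (∀ t, P.f t = fk χ (D.M c) t) ∧
      (∀ t, P.g t = fk' D χ c t) ∧ P.k = 1 ∧
      P.ε = (((cv K ((f : FI K) * D.M c))⁻¹ : ℝ) : ℂ) * (-I) ^ dk K χ.k ∧
      P.f₀ = k0 χ (D.M c) ∧ P.g₀ = k0' D χ c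

open scoped Classical in
/-- (GK) the Gamma integral. -/
def U_GK : Prop :=
  ∀ (K : Type) [Field K] [NumberField K] (k : InfinitePlace K → ℤ) (x : K)
    (ν : InfinitePlace K → ℝ) (s : ℂ),
    (∀ v : InfinitePlace K, v.IsReal → k v = 0 ∨ k v = 1) → x ≠ 0 →
    ∑ v, (v.mult : ℝ) * ν v = 0 → 0 < s.re →
    Integrable (fun p : ℝ × logSpace K => wk K k (yc K p.1 p.2) x *
      ((Real.exp (-Real.pi * qK K (yc K p.1 p.2) x) : ℝ) : ℂ) *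
        (cexp (s * p.1) * ec K ν p.2)) ∧
    ∫ p : ℝ × logSpace K, wk K k (yc K p.1 p.2) x *
      ((Real.exp (-Real.pi * qK K (yc K p.1 p.2) x) : ℝ) : ℂ) *
        (cexp (s * p.1) * ec K ν p.2) =
      ((2 : ℂ) ^ (nrRealPlaces K + nrComplexPlaces K))⁻¹ * gG K k ν s *
        (((|Algebra.norm ℚ x| : ℚ) : ℝ) : ℂ) ^ (-s) * (ag k x * ph ν x)

/-- (DC) the dual coefficients. -/
def U_DC : Prop :=
  ∀ (K : Type) [Field K] [NumberField K] (f : Ideal (𝓞 K)), f ≠ ⊥ → ∀ (D : Sys K f)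
    (χ : HG K f), (∀ J : Ideal (𝓞 K), ‖cd D χ J‖ ≤ Real.sqrt (Nf K f)) ∧
    ∀ (c : D.ι) (x : K), x ∈ du K ((f : FI K) * D.M c) → x ≠ 0 →
      ((Real.sqrt (Nf K f) : ℝ) : ℂ) * cd D χ (idl K (du K ((f : FI K) * D.M c)) x) =
        ch D χ c x * (starRingEnd ℂ) (ag χ.k x) * (starRingEnd ℂ) (ph χ.ν x)

/-- (MK) the Mellin transform. -/
def U_MK : Prop :=
  ∀ (K : Type) [Field K] [NumberField K] (f : Ideal (𝓞 K)), f ≠ ⊥ → ∀ (χ : HG K f) (M : FI K),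
    M ≠ 0 → ∀ s : ℂ, 1 < s.re →
    mellin (fun t => fk χ M t - k0 χ M) s = (cw K : ℂ) * gG K χ.k χ.ν s *
      ((FractionalIdeal.absNorm M : ℝ) : ℂ) ^ (-s) *
        ∑' I : {I : Ideal (𝓞 K) // Pri K M I}, χ.ψ I.1 * (Ideal.absNorm I.1 : ℂ) ^ (-s)

/-- (MM) the dual Mellin transform. -/
def U_MM : Prop :=
  ∀ (K : Type) [Field K] [NumberField K] (f : Ideal (𝓞 K)), f ≠ ⊥ → ∀ (D : Sys K f)
    (χ : HG K f) (c : D.ι) (s : ℂ), 1 < s.re →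
    mellin (fun t => fk' D χ c t - k0' D χ c) s = (cw K : ℂ) * gG K χ.k (-χ.ν) s *
      ((FractionalIdeal.absNorm (du K ((f : FI K) * D.M c)) : ℝ) : ℂ) ^ (-s) *
        (((Real.sqrt (Nf K f) : ℝ) : ℂ) * ∑' J : {J : Ideal (𝓞 K) //
          Pri K (du K ((f : FI K) * D.M c)) J},
            cd D χ J.1 * (Ideal.absNorm J.1 : ℂ) ^ (-s))

/-- (GE) the Gamma factor: no zeros, poles and growth of the inverse. -/
def U_GE : Prop :=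
  ∀ (K : Type) [Field K] [NumberField K] (k : InfinitePlace K → ℤ) (ν : InfinitePlace K → ℝ),
    (∀ v : InfinitePlace K, v.IsReal → k v = 0 ∨ k v = 1) →
    Differentiable ℂ (fun s => (gG K k ν s)⁻¹) ∧ (∀ s : ℂ, 0 < s.re → gG K k ν s ≠ 0 ∧
      DifferentiableAt ℂ (gG K k ν) s) ∧
    ∀ b : ℝ, ∃ C A : ℝ, ∀ s : ℂ, |s.re| ≤ b → ‖(gG K k ν s)⁻¹‖ ≤ C * Real.exp (A * |s.im|)

/-- (GR) the quotient of the Gamma factors. -/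
def U_GR : Prop :=
  ∀ n : ℕ, ∃ C : ℝ, 0 ≤ C ∧ ∀ (K : Type) [Field K] [NumberField K],
    Module.finrank ℚ K = n → ∀ (k : InfinitePlace K → ℤ) (ν : InfinitePlace K → ℝ) (T : ℝ),
    (∀ v : InfinitePlace K, v.IsReal → k v = 0 ∨ k v = 1) → 1 ≤ T →
    (∀ v, |ν v| ≤ T ∧ |(k v : ℝ)| ≤ T) → ∀ s : ℂ, 1 / 2 ≤ s.re → s.re ≤ 3 / 2 →
    ‖gG K k (-ν) s * (gG K k ν (1 - s))⁻¹‖ ≤
      C * (T * (1 + |s.im|)) ^ ((n : ℝ) * (s.re - 1 / 2))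

/-- (FK) the functional equation of the `L`-function. -/
def U_FK : Prop :=
  ∀ (K : Type) [Field K] [NumberField K] (f : Ideal (𝓞 K)), f ≠ ⊥ → ∀ (D : Sys K f)
    (χ : HG K f), ∃ L : ℂ → ℂ, IsL D χ L ∧
      ((∃ I : Ideal (𝓞 K), χ.ψ I ≠ 0 ∧ χ.ψ I ≠ 1) → Differentiable ℂ L)

/-! ### Part F: approximate functional equation, finiteness, counting -/

/-- (AF) the approximate functional equation. -/
def U_AF : Prop :=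
  ∃ C₀ : ℝ, ∀ κ : ℝ, 0 < κ → κ ≤ 1 → ∀ (L E G : ℂ → ℂ) (a a' : ℕ → ℂ → ℂ) (X t : ℝ)
    (u u' : ℕ → ℝ), 0 < X → (∀ j, u j = κ ∨ u j = 1) → (∀ j, u' j = κ ∨ u' j = 1) →
    Differentiable ℂ E → (∀ s : ℂ, s ≠ 0 → s ≠ 1 → E s = s * (s - 1) * L s) →
    (∃ C A : ℝ, ∀ s : ℂ, |s.re| ≤ 3 → ‖E s‖ ≤ C * Real.exp (A * |s.im|)) →
    (∀ j, Differentiable ℂ (a j)) → (∀ j, Differentiable ℂ (a' j)) →
    (∀ j, ∃ C : ℝ, ∀ s : ℂ, 1 / 2 ≤ s.re → ‖a j s‖ ≤ C ∧ ‖a' j s‖ ≤ C) →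
    (∃ c : ℕ → ℝ, Summable c ∧ ∀ j, ∀ s : ℂ, s.re = 3 / 2 → ‖a j s‖ ≤ c j ∧ ‖a' j s‖ ≤ c j) →
    (∀ s : ℂ, s.re = 3 / 2 → L s = ∑' j, a j s) →
    (∀ s : ℂ, s.re = 3 / 2 → L (1 - s) = G s * ∑' j, a' j s) →
    (∀ s : ℂ, 0 < s.re → DifferentiableAt ℂ G s) →
    (∃ C A : ℝ, ∀ s : ℂ, 1 / 2 ≤ s.re → s.re ≤ 3 / 2 → ‖G s‖ ≤ C * Real.exp (A * |s.im|)) →
    ENNReal.ofReal (‖L (1 / 2 + t * I)‖ ^ 2) ≤ ENNReal.ofReal (C₀ * κ ^ (-2 : ℝ)) *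
      (∑' j : ℕ, ENNReal.ofReal ((1 + j) ^ 2 * X ^ (2 * u j)) * ∫⁻ v : ℝ, ENNReal.ofReal
        (‖a j (1 / 2 + u j + (t + v) * I)‖ ^ 2 * Real.exp (-v ^ 2 / 2)) +
      ∑' j : ℕ, ENNReal.ofReal ((1 + j) ^ 2 * X ^ (-(2 * u' j))) * ∫⁻ v : ℝ, ENNReal.ofReal
        (‖G (1 / 2 + u' j - (t + v) * I) * a' j (1 / 2 + u' j - (t + v) * I)‖ ^ 2 *
          Real.exp (-v ^ 2 / 2)))

/-- (BK) the dyadic pieces of the two Dirichlet series. -/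
def U_BK : Prop :=
  ∀ (K : Type) [Field K] [NumberField K] (a : Ideal (𝓞 K) → ℂ) (A : ℝ), (∀ J, ‖a J‖ ≤ A) →
    (∀ j, Differentiable ℂ (blk a j)) ∧
    (∀ j, ∃ C : ℝ, ∀ s : ℂ, 1 / 2 ≤ s.re → ‖blk a j s‖ ≤ C) ∧
    (∃ c : ℕ → ℝ, Summable c ∧ ∀ j, ∀ s : ℂ, s.re = 3 / 2 → ‖blk a j s‖ ≤ c j) ∧
    (∀ s : ℂ, 1 < s.re → ∑' j, blk a j s =
      ∑' J : NZI K, a J.1 * (Ideal.absNorm J.1 : ℂ) ^ (-s)) ∧
    ∀ (j : ℕ) (σ t : ℝ), 0 ≤ σ → ∃ b : Ideal (𝓞 K) → ℂ,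
      (∀ J, ‖b J‖ ≤ (2 : ℝ) ^ (-(j * σ))) ∧
      blk a j (σ + t * I) = bs a b (2 ^ j) t

/-- (CB) the number of the characters. -/
def U_CB : Prop :=
  ∀ n : ℕ, 0 < n → ∃ c : ℝ, 0 < c ∧ ∀ (K : Type) [Field K] [NumberField K],
    Module.finrank ℚ K = n → ∀ f : Ideal (𝓞 K), f ≠ ⊥ → ∀ T : ℝ, 1 ≤ T →
    ∃ Y : Finset (HG K f), (∀ χ ∈ Y, χ ∈ box K f T) ∧
      c * (T ^ (n - 1) * (classNumber K * regulator K * Phi K f)) ≤ Y.card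

/-- (FG) the family is finite. -/
def U_FG : Prop :=
  ∀ (K : Type) [Field K] [NumberField K] (f : Ideal (𝓞 K)) (T : ℝ), f ≠ ⊥ → 1 ≤ T →
    (box K f T).Finite

end Pool.Agent.H23.LC
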