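import Pool.Agent.H23.LC.Defs

/-!
# The mean value of the `L`-functions of all Hecke characters of a number field: tools
-/

set_option autoImplicit false

open NumberField NumberField.InfinitePlace NumberField.Units
  NumberField.Units.dirichletUnitTheorem MeasureTheory Set Filter Complex
open scoped nonZeroDivisors ENNReal

namespace Pool.Agent.H23.LC

open Pool.Agent.H25.HK Pool.Agent.H23.LB
open Pool.Agent.H28.RC (Rep ft idl)

section NF

variable (K : Type) [Field K] [NumberField K]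

/-- nonzero ideals -/
abbrev NZI : Type := {I : Ideal (𝓞 K) // I ≠ ⊥}

/-- the number of the infinite places -/
noncomputable def np : ℕ := nrRealPlaces K + nrComplexPlaces K

variable {K}

/-- the angle function: the sign for real places, `exp(i θ)` for complex places -/
noncomputable def an (v : InfinitePlace K) (θ : ℝ) : ℂ :=
  open scoped Classical in
  if v.IsReal then (if θ < Real.pi then 1 else -1) else cexp (θ * I)

/-- the angular character `∏_v an_v(θ_v) ^ (-k_v)` -/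
noncomputable def ek (k : InfinitePlace K → ℤ) (θ : InfinitePlace K → ℝ) : ℂ :=
  ∏ v : InfinitePlace K, an v (θ v) ^ (-k v)

/-- the coefficient `ψ(x M⁻¹)` divided by the infinite part, extended periodically to `0` -/
noncomputable def cg {f : Ideal (𝓞 K)} (χ : HG K f) (M : FI K) (x : K) : ℂ :=
  open scoped Classical in
  (starRingEnd ℂ) (ag χ.k (if x = 0 then z1 K f M else x)) *
    (starRingEnd ℂ) (ph χ.ν (if x = 0 then z1 K f M else x)) *
    χ.ψ (idl K M (if x = 0 then z1 K f M else x))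

/-- the Fourier transform of the coefficient -/
noncomputable def ch {f : Ideal (𝓞 K)} (D : Sys K f) (χ : HG K f) (c : D.ι) (x : K) : ℂ :=
  ft K (D.X c) (cg χ (D.M c)) x

variable (K)

/-- the Gamma factor -/
noncomputable def gG (k : InfinitePlace K → ℤ) (ν : InfinitePlace K → ℝ) (s : ℂ) : ℂ :=
  open scoped Classical in
  ∏ v : InfinitePlace K, if v.IsReal then Gammaℝ (s + k v - ν v * I)
    else Gammaℂ (s + |(k v : ℝ)| / 2 - ν v * I)

/-! ### Theta series with harmonic polynomials -/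

/-- the weight `∏_v (exp(y_v / 2) |x|_v) ^ |k_v| (x_v / |x_v|) ^ k_v` -/
noncomputable def wk (k : InfinitePlace K → ℤ) (y : InfinitePlace K → ℝ) (x : K) : ℂ :=
  (∏ v : InfinitePlace K, (((Real.exp (y v / 2) * v x : ℝ) : ℂ)) ^ (k v).natAbs) * ag k x

/-- the theta series -/
noncomputable def tk (k : InfinitePlace K → ℤ) (M : FI K) (c : K → ℂ)
    (y : InfinitePlace K → ℝ) : ℂ :=
  ∑' x : {x : K // x ∈ M}, c x * (wk K k y x * ((Real.exp (-Real.pi * qK K y x) : ℝ) : ℂ))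

/-- the degree of the harmonic polynomial -/
noncomputable def dk (k : InfinitePlace K → ℤ) : ℕ := ∑ v : InfinitePlace K, (k v).natAbs

variable {K}

open scoped Classical in
/-- the averaged theta series -/
noncomputable def fk {f : Ideal (𝓞 K)} (χ : HG K f) (M : FI K) (t : ℝ) : ℂ :=
  ∫ z in Fd K, ec K χ.ν z * tk K χ.k M (cg χ M) (yc K (Real.log t) z)

open scoped Classical in
/-- the dual averaged theta series -/
noncomputable def fk' {f : Ideal (𝓞 K)} (D : Sys K f) (χ : HG K f) (c : D.ι) (t : ℝ) : ℂ :=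
  ∫ z in Fd K, ec K χ.ν z *
    tk K (-χ.k) (du K ((f : FI K) * D.M c)) (ch D χ c) (yc K (Real.log t) (-z))

open scoped Classical in
/-- the constant term of `fk` -/
noncomputable def k0 {f : Ideal (𝓞 K)} (χ : HG K f) (M : FI K) : ℂ :=
  if χ.k = 0 then cg χ M 0 * ∫ z in Fd K, ec K χ.ν z else 0

open scoped Classical in
/-- the constant term of `fk'` -/
noncomputable def k0' {f : Ideal (𝓞 K)} (D : Sys K f) (χ : HG K f) (c : D.ι) : ℂ :=
  if χ.k = 0 then ch D χ c 0 * ∫ z in Fd K, ec K χ.ν z else 0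

/-! ### The dual Dirichlet series -/

open scoped Classical in
/-- the dual coefficient: if `J du(f M_c) = (x)` then it is
`N(f)^(-1/2) ∑_r cg(r) e(Tr(r x))` divided by the infinite part of `x` -/
noncomputable def cd {f : Ideal (𝓞 K)} (D : Sys K f) (χ : HG K f) (J : Ideal (𝓞 K)) : ℂ :=
  if h : ∃ p : D.ι × K, p.2 ≠ 0 ∧ (J : FI K) * du K ((f : FI K) * D.M p.1) =
      FractionalIdeal.spanSingleton (𝓞 K)⁰ p.2
    then ((Real.sqrt (Nf K f) : ℝ) : ℂ)⁻¹ * ch D χ h.choose.1 h.choose.2 *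
      (starRingEnd ℂ) (ag χ.k h.choose.2) * (starRingEnd ℂ) (ph χ.ν h.choose.2)
    else 0

/-- the dual Dirichlet series -/
noncomputable def serd {f : Ideal (𝓞 K)} (D : Sys K f) (χ : HG K f) (s : ℂ) : ℂ :=
  ∑' J : NZI K, cd D χ J.1 * (Ideal.absNorm J.1 : ℂ) ^ (-s)

open scoped Classical in
/-- dyadic pieces of a Dirichlet series over the ideals -/
noncomputable def blk (a : Ideal (𝓞 K) → ℂ) (j : ℕ) (s : ℂ) : ℂ :=
  ∑' I : NZI K, if 2 ^ j ≤ Ideal.absNorm I.1 ∧ Ideal.absNorm I.1 < 2 ^ (j + 1) then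
    a I.1 * (Ideal.absNorm I.1 : ℂ) ^ (-s) else 0

/-- the factor of the functional equation -/
noncomputable def gf {f : Ideal (𝓞 K)} (χ : HG K f) (s : ℂ) : ℂ :=
  (-I) ^ dk K χ.k * (((|(discr K : ℝ)| * Nf K f : ℝ) : ℂ)) ^ (s - 1 / 2) *
    (gG K χ.k (-χ.ν) s * (gG K χ.k χ.ν (1 - s))⁻¹)

/-- the properties of the `L`-function which are used: continuation, growth, functional
equation -/
def IsL {f : Ideal (𝓞 K)} (D : Sys K f) (χ : HG K f) (L : ℂ → ℂ) : Prop :=
  (∀ s : ℂ, 1 < s.re → L s = χ.series s) ∧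
  (∀ s : ℂ, s ≠ 0 → s ≠ 1 → DifferentiableAt ℂ L s) ∧
  (∃ E : ℂ → ℂ, Differentiable ℂ E ∧ (∀ s : ℂ, s ≠ 0 → s ≠ 1 → E s = s * (s - 1) * L s) ∧
    ∀ b : ℝ, ∃ C A : ℝ, ∀ s : ℂ, |s.re| ≤ b → ‖E s‖ ≤ C * Real.exp (A * |s.im|)) ∧
  ∀ s : ℂ, 1 < s.re → L (1 - s) = gf χ s * serd D χ s

open scoped Classical in
/-- the harmonic polynomial in real coordinates -/
noncomputable def hp (k : InfinitePlace K → ℤ) (u : mixedEmbedding.index K → ℝ) : ℂ :=
  (∏ v : {w : InfinitePlace K // w.IsReal}, ((u (Sum.inl v) : ℝ) : ℂ) ^ (k v.1).natAbs) *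
    ∏ v : {w : InfinitePlace K // w.IsComplex}, (((u (Sum.inr (v, 0)) : ℝ) : ℂ) +
      (if 0 ≤ k v.1 then 1 else -1) * I * ((u (Sum.inr (v, 1)) : ℝ) : ℂ)) ^ (k v.1).natAbs

/-! ### Thin regions in the multiplicative group at infinity -/

/-- `x_v exp(y_v / 2) an_v(θ_v)` is close to `1` for all `v` -/
def Bp (δ : ℝ) (x : K) (y : InfinitePlace K → ℝ) (θ : InfinitePlace K → ℝ) : Prop :=
  ∀ v : InfinitePlace K, ‖v.embedding x * ((Real.exp (y v / 2) : ℝ) : ℂ) * an v (θ v) - 1‖ ≤ δ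

/-- the same with conjugate angles -/
def Bd (δ : ℝ) (x : K) (y : InfinitePlace K → ℝ) (θ : InfinitePlace K → ℝ) : Prop :=
  ∀ v : InfinitePlace K,
    ‖v.embedding x * ((Real.exp (y v / 2) : ℝ) : ℂ) * (starRingEnd ℂ) (an v (θ v)) - 1‖ ≤ δ

/-- `|x|_v exp(y_v / 2)` is close to `1` for all `v` -/
def Bt (δ : ℝ) (x : K) (y : InfinitePlace K → ℝ) : Prop :=
  ∀ v : InfinitePlace K, |Real.log (v x) + y v / 2| ≤ δ

variable (K)

/-- the logarithmic coordinates, normalised with the norm of `M` -/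
noncomputable def yM (M : FI K) (τ : ℝ) (z : logSpace K) : InfinitePlace K → ℝ :=
  yc K (τ - Real.log (FractionalIdeal.absNorm M : ℝ)) z

/-- the angles -/
def An : Set (InfinitePlace K → ℝ) := Set.univ.pi fun _ => Set.Icc 0 (2 * Real.pi)

open scoped Classical in
/-- the Fourier coefficient of the thin region -/
noncomputable def Uh (δ : ℝ) (k : InfinitePlace K → ℤ) (ν : InfinitePlace K → ℝ) (t : ℝ) : ℂ :=
  ∫ p : logSpace K × ℝ, ec K ν p.1 * cexp (t * p.2 * I) *
    ∫ θ in An K, ek k θ * if Bp δ (1 : K) (yc K p.2 p.1) θ then 1 else 0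

variable {K}

/-- `x ∈ M`, `x ≠ 0`, and the norm of `x M⁻¹` lies in `[Y, 2 Y)` -/
def Bl (Y : ℝ) (M : FI K) (x : K) : Prop :=
  x ∈ M ∧ x ≠ 0 ∧ Y ≤ (Ideal.absNorm (idl K M x) : ℝ) ∧ (Ideal.absNorm (idl K M x) : ℝ) < 2 * Y

open scoped Classical in
/-- the sum `∑ b(J) a(J) N(J)^(-i t)` over the ideals with norm in `[Y, 2 Y)` -/
noncomputable def bs (a b : Ideal (𝓞 K) → ℂ) (Y t : ℝ) : ℂ :=
  ∑' J : NZI K, if Y ≤ (Ideal.absNorm J.1 : ℝ) ∧ (Ideal.absNorm J.1 : ℝ) < 2 * Y then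
    b J.1 * a J.1 * (Ideal.absNorm J.1 : ℂ) ^ (-(t * I : ℂ)) else 0

open scoped Classical in
/-- the sum over the points of a residue class in a thin region -/
noncomputable def Sp (f : Ideal (𝓞 K)) (δ Y : ℝ) (b : Ideal (𝓞 K) → ℂ) (M : FI K) (r : K)
    (τ : ℝ) (z : logSpace K) (θ : InfinitePlace K → ℝ) : ℂ :=
  ∑' x : {x : K // Bl Y M x}, if x.1 - r ∈ (f : FI K) * M ∧ Bp δ x.1 (yM K M τ z) θ then
    b (idl K M x) else 0

open scoped Classical in
/-- the dual sum, `M` is the dual lattice -/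
noncomputable def Sd (δ Y : ℝ) (b : Ideal (𝓞 K) → ℂ) (M : FI K) (r : K)
    (τ : ℝ) (z : logSpace K) (θ : InfinitePlace K → ℝ) : ℂ :=
  ∑' x : {x : K // Bl Y M x}, if Bd δ x.1 (yM K M τ (-z)) θ then b (idl K M x) * ca K r x else 0

open scoped Classical in
/-- the number of the points in a thin region (angles included) -/
noncomputable def NP (δ Y : ℝ) (M : FI K) (τ : ℝ) (z : logSpace K)
    (θ : InfinitePlace K → ℝ) : ℝ≥0∞ :=
  ∑' x : {x : K // Bl Y M x}, if Bp δ x.1 (yM K M τ z) θ then 1 else 0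

open scoped Classical in
/-- the same with conjugate angles -/
noncomputable def ND (δ Y : ℝ) (M : FI K) (τ : ℝ) (z : logSpace K)
    (θ : InfinitePlace K → ℝ) : ℝ≥0∞ :=
  ∑' x : {x : K // Bl Y M x}, if Bd δ x.1 (yM K M τ z) θ then 1 else 0

open scoped Classical in
/-- the number of the points in a thin region (absolute values only) -/
noncomputable def NT (δ Y : ℝ) (M : FI K) (τ : ℝ) (z : logSpace K) : ℝ≥0∞ :=
  ∑' x : {x : K // Bl Y M x}, if Bt δ x.1 (yM K M τ z) then 1 else 0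

open scoped Classical in
/-- the number of the points of `L` with `|x|_v exp(y_v / 2) ≤ δ` for all `v` -/
noncomputable def NB (δ : ℝ) (L : FI K) (y : InfinitePlace K → ℝ) : ℝ≥0∞ :=
  ∑' h : {h : K // h ∈ L}, if ∀ v : InfinitePlace K, v h.1 * Real.exp (y v / 2) ≤ δ then 1 else 0

end NF

end Pool.Agent.H23.LC
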