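import Pool.Agent.H23.LC.Targets

/-!
# The mean value of the `L`-functions of all Hecke characters: corrected targets
-/

set_option autoImplicit false

open NumberField NumberField.InfinitePlace NumberField.Units
  NumberField.Units.dirichletUnitTheorem MeasureTheory Set Filter Complex
open scoped nonZeroDivisors ENNReal

namespace Pool.Agent.H23.LC

open Pool.Agent.H25.HK Pool.Agent.H23.LB
open Pool.Agent.H28.RC (Rep ft idl)

/-- (GR) the quotient of the Gamma factors (replaces `U_GR`, the bound is now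
`T + |Im s|` and not `T (1 + |Im s|)`). -/
def U_GR2 : Prop :=
  ∀ n : ℕ, ∃ C : ℝ, 0 ≤ C ∧ ∀ (K : Type) [Field K] [NumberField K],
    Module.finrank ℚ K = n → ∀ (k : InfinitePlace K → ℤ) (ν : InfinitePlace K → ℝ) (T : ℝ),
    (∀ v : InfinitePlace K, v.IsReal → k v = 0 ∨ k v = 1) → 1 ≤ T →
    (∀ v, |ν v| ≤ T ∧ |(k v : ℝ)| ≤ T) → ∀ s : ℂ, 1 / 2 ≤ s.re → s.re ≤ 3 / 2 →
    ‖gG K k (-ν) s * (gG K k ν (1 - s))⁻¹‖ ≤
      C * (T + |s.im|) ^ ((n : ℝ) * (s.re - 1 / 2))

end Pool.Agent.H23.LC
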