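import Pool.Agent.H23.LB.Tools

/-!
# The mean value of the `L`-functions of all Hecke characters of a number field: definitions
-/

set_option autoImplicit false

open NumberField NumberField.InfinitePlace NumberField.Units
  NumberField.Units.dirichletUnitTheorem MeasureTheory Set Filter Complex
open scoped nonZeroDivisors ENNReal

namespace Pool.Agent.H23.LC

open Pool.Agent.H25.HK Pool.Agent.H23.LB

section NF

variable {K : Type} [Field K] [NumberField K]

/-- the angular part `∏_v (x_v / |x_v|) ^ k_v` -/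
noncomputable def ag (k : InfinitePlace K → ℤ) (x : K) : ℂ :=
  ∏ v : InfinitePlace K, (v.embedding x / ((v x : ℝ) : ℂ)) ^ k v

variable (K)

/-- A unitary Hecke character of `K` modulo `f`: a multiplicative function `ψ` on the ideals, of
absolute value `1` at the nonzero ideals prime to `f` and `0` at the others, with
`ψ((a)) = ∏_v (a_v / |a_v|) ^ k_v ∏_v |a|_v ^ (i e_v ν_v)` for `a ≡ 1 mod f` (`e_v = 1` for real
and `2` for complex places `v`), with integers `k_v` (`0` or `1` for real places) and real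
numbers `ν_v`, normalised by `∑ e_v ν_v = 0`. -/
structure HG (f : Ideal (𝓞 K)) where
  /-- the character -/
  ψ : Ideal (𝓞 K) → ℂ
  /-- the angular parameters -/
  k : InfinitePlace K → ℤ
  /-- the frequencies -/
  ν : InfinitePlace K → ℝ
  map_top : ψ ⊤ = 1
  map_mul : ∀ I J, ψ (I * J) = ψ I * ψ J
  map_bot : ψ ⊥ = 0
  norm_one : ∀ I, I ≠ ⊥ → I ⊔ f = ⊤ → ‖ψ I‖ = 1
  eq_zero : ∀ I, I ⊔ f ≠ ⊤ → ψ I = 0
  princ : ∀ a : 𝓞 K, a ≠ 0 → a - 1 ∈ f → ψ (Ideal.span {a}) = ag k (a : K) * ph ν (a : K)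
  real_k : ∀ v : InfinitePlace K, v.IsReal → k v = 0 ∨ k v = 1
  norm_zero : ∑ v, (v.mult : ℝ) * ν v = 0

variable {K} {f : Ideal (𝓞 K)}

/-- the Dirichlet series -/
noncomputable def HG.series (χ : HG K f) (s : ℂ) : ℂ :=
  ∑' I : {I : Ideal (𝓞 K) // I ≠ ⊥}, χ.ψ I.1 * (Ideal.absNorm I.1 : ℂ) ^ (-s)

variable (K)

/-- the characters modulo `f` with archimedean parameters at most `T` -/
def box (f : Ideal (𝓞 K)) (T : ℝ) : Set (HG K f) := {χ | ∀ v, |χ.ν v| ≤ T ∧ |(χ.k v : ℝ)| ≤ T}

end NF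

end Pool.Agent.H23.LC
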